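import Pool.Agent.E8helper71.CTK3.Fact
import Pool.Agent.E8helper20.CTL3.StmD

/-!
# Project CTL3, part L6: translations

Adapted from `Pool.Agent.E8helper71.CTK3.Fact` and `Pool.Agent.R419.KL.NS`.
-/

set_option autoImplicit false
set_option linter.unusedVariables false
set_option linter.unusedSectionVars false

open scoped Classical

namespace Pool.Agent.E8helper81.CTL3

open NumberField Finset
open Pool.Agent.Y692.QS (Ei w nr toC)
open Pool.Agent.Y715.T.RecG (Pq)
open Pool.Agent.Y703.CT (Dt pD)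
open Pool.Agent.Y715.T.Rec (cs nn)
open Pool.Agent.R419.KF (wt)
open Pool.Agent.E8helper20.CT3 (Ker3 KerV3)
open Pool.Agent.E8helper20.CTK3 (IsFact3 Lap3 el3)
open Pool.Agent.E8helper20.CTL3 (nS3)
open Pool.Agent.E8helper71.CTK3 (w_sq_pow three_symm pq_symm')

lemma wt_ne (M : Finset Ei) (ρ : Ei) : wt M ρ ≠ 0 := by
  unfold wt
  split_ifs <;> decide

/-- the kernels -/
lemma ker_iffL {K : Type} [Field K] [NumberField K] (j : Ei ≃+* 𝓞 K)
    (hj : ∀ z : Ei, Algebra.norm ℤ (j z) = nr z)
    {ω D : 𝓞 K} {n : ℕ} {π : Fin n → 𝓞 K} {e : Fin n → ZMod 3} {χ : Fin n → Fin n → ZMod 3}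
    {τ : Fin n → ZMod 3} (hω : ω ^ 2 + ω + 1 = 0) (h : IsFact3 ω D n π e χ τ)
    (v : Fin n → ZMod 3) :
    KerV3 (fun i => j.symm (π i)) e v ↔
      ∀ k, ∑ i, e i * χ k i * (v i - v k) = τ k * v k := by
  obtain ⟨h1, h2, h3, h6⟩ := h
  obtain ⟨ε, hε, hcs, hct⟩ : ∃ ε : ZMod 3, ε ≠ 0 ∧ (∀ i k, i ≠ k →
      cs (j.symm (π k)) (j.symm (π i)) = ε * χ k i) ∧ ∀ k, cs (j.symm (π k)) 3 = ε * τ k := by
    have hnn : ∀ k, nn (j.symm (π k)) = ((Algebra.norm ℤ (π k)).natAbs - 1) / 3 := by
      intro k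
      unfold nn
      rw [← hj, RingEquiv.apply_symm_apply]
    have hww : (w : Ei) ^ 2 + w + 1 = 0 := by decide
    have hfac : (ω - j w) * (ω - j (w ^ 2)) = 0 := by
      have e1 : (w : Ei) ^ 2 = -w - 1 := by linear_combination hww
      rw [e1, map_sub, map_neg, map_one]
      have e2 : (j w) ^ 2 + j w + 1 = 0 := by
        rw [← map_pow, ← map_one j, ← map_add, ← map_add, hww, map_zero]
      linear_combination hω - e2
    rcases mul_eq_zero.1 hfac with h4 | h4
    · refine ⟨1, one_ne_zero, fun i k hik => ?_, fun k => ?_⟩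
      · rw [one_mul]
        have hpq := pq_symm' j (h1 k).1 (h1 k).2.1
        apply Pool.Agent.Y715.T.RecG.cs_of hpq.prime hpq.norm
        have h5 := map_dvd j.symm (h3 i k hik).2
        rw [sub_eq_zero.1 h4, map_sub, map_pow, map_pow, RingEquiv.symm_apply_apply, ← hnn k] at h5
        exact h5
      · rw [one_mul]
        have hpq := pq_symm' j (h1 k).1 (h1 k).2.1
        apply Pool.Agent.Y715.T.RecG.cs_of hpq.prime hpq.norm
        have h5 := map_dvd j.symm (h6 k)
        rw [sub_eq_zero.1 h4, map_sub, map_pow, map_pow, RingEquiv.symm_apply_apply, ← hnn k,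
          map_ofNat] at h5
        exact h5
    · refine ⟨-1, by decide, fun i k hik => ?_, fun k => ?_⟩
      · rw [neg_one_mul]
        have hpq := pq_symm' j (h1 k).1 (h1 k).2.1
        apply Pool.Agent.Y715.T.RecG.cs_of hpq.prime hpq.norm
        have h5 := map_dvd j.symm (h3 i k hik).2
        rw [sub_eq_zero.1 h4, map_sub, map_pow, map_pow, RingEquiv.symm_apply_apply, ← hnn k,
          w_sq_pow] at h5
        exact h5
      · rw [neg_one_mul]
        have hpq := pq_symm' j (h1 k).1 (h1 k).2.1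
        apply Pool.Agent.Y715.T.RecG.cs_of hpq.prime hpq.norm
        have h5 := map_dvd j.symm (h6 k)
        rw [sub_eq_zero.1 h4, map_sub, map_pow, map_pow, RingEquiv.symm_apply_apply, ← hnn k,
          w_sq_pow, map_ofNat] at h5
        exact h5
  have key : ∀ k : Fin n,
      ∑ i, e i * cs (j.symm (π k)) (j.symm (π i)) * (v i - v k) =
        ε * ∑ i, e i * χ k i * (v i - v k) := by
    intro k
    rw [Finset.mul_sum]
    refine Finset.sum_congr rfl fun i _ => ?_
    by_cases hik : i = k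
    · rw [hik, sub_self, mul_zero, mul_zero, mul_zero]
    · rw [hcs i k hik]
      ring
  unfold KerV3
  simp only [key, hct, mul_assoc ε]
  have hc : ∀ a b : ZMod 3, ε * a = ε * b ↔ a = b := fun a b => mul_right_inj' hε
  simp only [hc]

/-- the number of the solutions is a power of three -/
lemma ker_powL {J : Type} [Fintype J] (π : J → Ei) (e : J → ZMod 3) :
    ∃ r : ℕ, Nat.card {v : J → ZMod 3 // KerV3 π e v} = 3 ^ r := by
  let V : Submodule (ZMod 3) (J → ZMod 3) :=
    { carrier := {v | KerV3 π e v}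
      zero_mem' := fun j => by simp
      add_mem' := fun {a b} ha hb j => by
        have h1 := ha j
        have h2 := hb j
        have h3 : ∑ i, e i * cs (π j) (π i) * ((a + b) i - (a + b) j) =
            ∑ i, e i * cs (π j) (π i) * (a i - a j) +
            ∑ i, e i * cs (π j) (π i) * (b i - b j) := by
          rw [← Finset.sum_add_distrib]
          exact Finset.sum_congr rfl fun i _ => by rw [Pi.add_apply, Pi.add_apply]; ring
        rw [h3, h1, h2, Pi.add_apply, mul_add]
      smul_mem' := fun c a ha j => by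
        have h1 := ha j
        have h3 : ∑ i, e i * cs (π j) (π i) * ((c • a) i - (c • a) j) =
            c * ∑ i, e i * cs (π j) (π i) * (a i - a j) := by
          rw [Finset.mul_sum]
          exact Finset.sum_congr rfl fun i _ => by
            rw [Pi.smul_apply, Pi.smul_apply, smul_eq_mul, smul_eq_mul]; ring
        rw [h3, h1, Pi.smul_apply, smul_eq_mul]
        ring }
  have h2 : Nat.card V = 3 ^ Module.finrank (ZMod 3) V := by
    rw [Module.natCard_eq_pow_finrank (K := ZMod 3), Nat.card_zmod]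
  exact ⟨_, h2⟩

/-- the data of a pair -/
theorem dataL {M S : Finset Ei} (hS : ∀ q ∈ S, Pq q) (hM : M ⊆ S) (hne' : S.Nonempty) :
    ∃ (n : ℕ) (π : Fin (n + 1) → Ei) (e : Fin (n + 1) → ZMod 3), Dt π e ∧ el3 M S = pD π e ∧
      nS3 M S = Nat.card {v : Fin (n + 1) → ZMod 3 // KerV3 π e v} := by
  have hne : S.card ≠ 0 := (card_pos.2 hne').ne'
  obtain ⟨n, hn⟩ := Nat.exists_eq_succ_of_ne_zero hne
  obtain ⟨eq, -⟩ : ∃ eq : S ≃ Fin (n + 1), True := ⟨S.equivFinOfCardEq hn, trivial⟩
  obtain ⟨π, hπ⟩ : ∃ π : Fin (n + 1) → Ei, π = fun i => (eq.symm i : Ei) := ⟨_, rfl⟩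
  have hmem : ∀ i, π i ∈ S := fun i => by rw [hπ]; exact (eq.symm i).2
  have hinj : Function.Injective π := fun a b hab => eq.symm.injective (Subtype.ext (by
    rw [hπ] at hab
    exact hab))
  have himg : Finset.univ.image π = S := by
    ext q
    rw [mem_image]
    constructor
    · rintro ⟨i, -, rfl⟩
      exact hmem i
    · intro hq
      refine ⟨eq ⟨q, hq⟩, mem_univ _, ?_⟩
      simp [hπ]
  refine ⟨n, π, fun i => wt M (π i), ⟨fun i => hS _ (hmem i), fun i j hij hd => ?_,
    fun i => wt_ne M _⟩, ?_, ?_⟩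
  · exact hij (hinj (Pool.Agent.Y699.E.eq_of_dvd (hS _ (hmem j)) (hS _ (hmem i)) hd)).symm
  · unfold pD el3
    have h2 : ∏ q ∈ S, q ^ (wt M q).val = ∏ i, π i ^ (wt M (π i)).val := by
      rw [← himg, prod_image fun a _ b _ h => hinj h]
    rw [← h2]
    have h4 : ∏ q ∈ M, q = ∏ q ∈ S, if q ∈ M then q else 1 := by
      rw [prod_ite_mem, inter_eq_right.2 hM]
    rw [h4, ← prod_mul_distrib]
    refine prod_congr rfl fun q _ => ?_
    unfold wt
    split_ifs with hq
    · have : (2 : ZMod 3).val = 2 := by decide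
      rw [this, pow_two]
    · have : (1 : ZMod 3).val = 1 := by decide
      rw [this, pow_one, mul_one]
  · unfold nS3
    refine Nat.card_congr ((Equiv.arrowCongr eq (Equiv.refl (ZMod 3))).subtypeEquiv fun v => ?_)
    subst hπ
    constructor
    · intro h j
      have h1 := h (eq.symm j)
      rw [← Equiv.sum_comp eq.symm] at h1
      exact h1
    · intro h x
      obtain ⟨j, rfl⟩ := eq.symm.surjective x
      rw [← Equiv.sum_comp eq.symm]
      exact h j

end Pool.Agent.E8helper81.CTL3
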